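import Pool.Agent.K9h52.HY.Stm

/-!
# Leaf HMV: hybrid discrete mean value over all characters modulo `q` (helper99)
-/

set_option autoImplicit false

open Complex MeasureTheory Set Filter Topology

namespace Pool.Agent.K9h99.HMV

open H370.MV

/-- the harmonic sum in a residue class -/
lemma harm_class (d X m : ℕ) (hd : 0 < d) (hm : m ∈ Finset.Icc 1 X) :
    ∑ n ∈ Finset.Icc 1 X, (if (m : ZMod d) = (n : ZMod d) then 1 / |(m : ℝ) - n| else 0) ≤
      2 * (1 + Real.log X) / d := by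
  classical
  rw [Finset.mem_Icc] at hm
  have hd0 : (0 : ℝ) < d := by exact_mod_cast hd
  have hH : ∑ k ∈ Finset.Icc 1 X, 1 / (k : ℝ) ≤ 1 + Real.log X := by
    have h := harmonic_le_one_add_log X
    rw [harmonic_eq_sum_Icc] at h
    push_cast at h
    simpa [one_div] using h
  have hcong : ∀ n : ℕ, (m : ZMod d) = (n : ZMod d) → n < m → d ∣ m - n := by
    intro n h1 h2
    have h3 := (ZMod.natCast_eq_natCast_iff m n d).1 h1
    exact (Nat.modEq_iff_dvd' h2.le).1 h3.symm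
  have hcong' : ∀ n : ℕ, (m : ZMod d) = (n : ZMod d) → m < n → d ∣ n - m := by
    intro n h1 h2
    have h3 := (ZMod.natCast_eq_natCast_iff m n d).1 h1
    exact (Nat.modEq_iff_dvd' h2.le).1 h3
  set P : ℕ → Prop := fun n => (m : ZMod d) = (n : ZMod d) with hP
  have h1 : ∑ n ∈ Finset.Icc 1 X, (if (m : ZMod d) = (n : ZMod d) then 1 / |(m : ℝ) - n| else 0) =
      ∑ n ∈ (Finset.Icc 1 X).filter (fun n => P n ∧ n < m), 1 / |(m : ℝ) - n| +
      ∑ n ∈ (Finset.Icc 1 X).filter (fun n => P n ∧ m < n), 1 / |(m : ℝ) - n| := by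
    rw [Finset.sum_filter, Finset.sum_filter, ← Finset.sum_add_distrib]
    refine Finset.sum_congr rfl fun n _ => ?_
    by_cases hp : P n
    · rw [if_pos hp]
      rcases lt_trichotomy n m with h | h | h
      · rw [if_pos ⟨hp, h⟩, if_neg (fun h' => absurd h'.2 (by omega)), add_zero]
      · subst h
        simp
      · rw [if_neg (fun h' => absurd h'.2 (by omega)), if_pos ⟨hp, h⟩, zero_add]
    · rw [if_neg hp, if_neg (fun h' => hp h'.1), if_neg (fun h' => hp h'.1), add_zero]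
  have h2 : ∑ n ∈ (Finset.Icc 1 X).filter (fun n => P n ∧ n < m), 1 / |(m : ℝ) - n| ≤
      (1 / d) * ∑ k ∈ Finset.Icc 1 X, 1 / (k : ℝ) := by
    have : ∑ n ∈ (Finset.Icc 1 X).filter (fun n => P n ∧ n < m), 1 / |(m : ℝ) - n| =
        ∑ k ∈ ((Finset.Icc 1 X).filter (fun n => P n ∧ n < m)).image (fun n => (m - n) / d),
          (1 / d) * (1 / (k : ℝ)) := by
      rw [Finset.sum_image]
      · refine Finset.sum_congr rfl ?_
        intro n hn
        simp only [Finset.mem_filter] at hn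
        obtain ⟨k, hk⟩ := hcong n hn.2.1 hn.2.2
        have e1 : (m - n) / d = k := by rw [hk]; exact Nat.mul_div_cancel_left k hd
        have e2 : (m : ℝ) - n = d * k := by
          rw [← Nat.cast_sub hn.2.2.le, hk]
          push_cast
          ring
        rw [e1, e2, abs_of_nonneg (by positivity), one_div_mul_one_div]
      · intro a ha b hb hab
        simp only [Finset.coe_filter, Set.mem_ofPred_eq] at ha hb
        obtain ⟨k, hk⟩ := hcong a ha.2.1 ha.2.2
        obtain ⟨l, hl⟩ := hcong b hb.2.1 hb.2.2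
        have e1 : (m - a) / d = k := by rw [hk]; exact Nat.mul_div_cancel_left k hd
        have e2 : (m - b) / d = l := by rw [hl]; exact Nat.mul_div_cancel_left l hd
        simp only [e1, e2] at hab
        subst hab
        have h5 := ha.2.2
        have h6 := hb.2.2
        omega
    rw [this, Finset.mul_sum]
    refine Finset.sum_le_sum_of_subset_of_nonneg ?_ (fun _ _ _ => by positivity)
    intro k hk
    obtain ⟨n, hn, rfl⟩ := Finset.mem_image.mp hk
    simp only [Finset.mem_filter, Finset.mem_Icc] at hn ⊢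
    obtain ⟨k, hk⟩ := hcong n hn.2.1 hn.2.2
    have e1 : (m - n) / d = k := by rw [hk]; exact Nat.mul_div_cancel_left k hd
    rw [e1]
    have h5 := hn.2.2
    have h6 : k ≠ 0 := by
      rintro rfl
      rw [mul_zero] at hk
      omega
    have h7 : k ≤ d * k := Nat.le_mul_of_pos_left k hd
    omega
  have h3 : ∑ n ∈ (Finset.Icc 1 X).filter (fun n => P n ∧ m < n), 1 / |(m : ℝ) - n| ≤
      (1 / d) * ∑ k ∈ Finset.Icc 1 X, 1 / (k : ℝ) := by
    have : ∑ n ∈ (Finset.Icc 1 X).filter (fun n => P n ∧ m < n), 1 / |(m : ℝ) - n| =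
        ∑ k ∈ ((Finset.Icc 1 X).filter (fun n => P n ∧ m < n)).image (fun n => (n - m) / d),
          (1 / d) * (1 / (k : ℝ)) := by
      rw [Finset.sum_image]
      · refine Finset.sum_congr rfl ?_
        intro n hn
        simp only [Finset.mem_filter] at hn
        obtain ⟨k, hk⟩ := hcong' n hn.2.1 hn.2.2
        have e1 : (n - m) / d = k := by rw [hk]; exact Nat.mul_div_cancel_left k hd
        have e2 : (n : ℝ) - m = d * k := by
          rw [← Nat.cast_sub hn.2.2.le, hk]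
          push_cast
          ring
        rw [e1, abs_sub_comm, e2, abs_of_nonneg (by positivity), one_div_mul_one_div]
      · intro a ha b hb hab
        simp only [Finset.coe_filter, Set.mem_ofPred_eq] at ha hb
        obtain ⟨k, hk⟩ := hcong' a ha.2.1 ha.2.2
        obtain ⟨l, hl⟩ := hcong' b hb.2.1 hb.2.2
        have e1 : (a - m) / d = k := by rw [hk]; exact Nat.mul_div_cancel_left k hd
        have e2 : (b - m) / d = l := by rw [hl]; exact Nat.mul_div_cancel_left l hd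
        simp only [e1, e2] at hab
        subst hab
        have h5 := ha.2.2
        have h6 := hb.2.2
        omega
    rw [this, Finset.mul_sum]
    refine Finset.sum_le_sum_of_subset_of_nonneg ?_ (fun _ _ _ => by positivity)
    intro k hk
    obtain ⟨n, hn, rfl⟩ := Finset.mem_image.mp hk
    simp only [Finset.mem_filter, Finset.mem_Icc] at hn ⊢
    obtain ⟨k, hk⟩ := hcong' n hn.2.1 hn.2.2
    have e1 : (n - m) / d = k := by rw [hk]; exact Nat.mul_div_cancel_left k hd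
    rw [e1]
    have h5 := hn.2.2
    have h8 := hn.1.2
    have h6 : k ≠ 0 := by
      rintro rfl
      rw [mul_zero] at hk
      omega
    have h7 : k ≤ d * k := Nat.le_mul_of_pos_left k hd
    omega
  rw [h1]
  have h4 : (1 / (d : ℝ)) * ∑ k ∈ Finset.Icc 1 X, 1 / (k : ℝ) ≤ (1 / d) * (1 + Real.log X) :=
    mul_le_mul_of_nonneg_left hH (by positivity)
  have h5 : 2 * (1 + Real.log X) / (d : ℝ) = (1 / d) * (1 + Real.log X) + (1 / d) * (1 + Real.log X) := by
    ring
  rw [h5]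
  linarith

/-- the square of a Dirichlet polynomial integrated -/
lemma int_expand (b : ℕ → ℂ) (X : ℕ) (T1 T2 : ℝ) :
    ((∫ t in T1..T2, ‖DH31.dp b X t‖ ^ 2 : ℝ) : ℂ)
      = ∑ m ∈ Finset.Icc 1 X, ∑ n ∈ Finset.Icc 1 X, b m * (starRingEnd ℂ) (b n) *
        ∫ t in T1..T2, cexp ((I * ((Real.log n - Real.log m : ℝ) : ℂ)) * t) := by
  have hexp : ∀ t : ℝ, ((‖DH31.dp b X t‖ ^ 2 : ℝ) : ℂ) =
      ∑ m ∈ Finset.Icc 1 X, ∑ n ∈ Finset.Icc 1 X, b m * (starRingEnd ℂ) (b n) *
        cexp ((I * ((Real.log n - Real.log m : ℝ) : ℂ)) * t) := by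
    intro t
    have h1 : ∀ z : ℂ, ((‖z‖ ^ 2 : ℝ) : ℂ) = z * (starRingEnd ℂ) z := by
      intro z; rw [Complex.mul_conj']; push_cast; rfl
    unfold DH31.dp
    rw [h1, map_sum, Finset.sum_mul_sum]
    refine Finset.sum_congr rfl fun m hm => Finset.sum_congr rfl fun n hn => ?_
    rw [Finset.mem_Icc] at hm hn
    have hm0 : (m : ℂ) ≠ 0 := by
      have : m ≠ 0 := by omega
      exact_mod_cast this
    have hn0 : (n : ℂ) ≠ 0 := by
      have : n ≠ 0 := by omega
      exact_mod_cast this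
    rw [map_mul, Complex.cpow_def_of_ne_zero hm0, Complex.cpow_def_of_ne_zero hn0,
      ← Complex.exp_conj, ← Complex.natCast_log, ← Complex.natCast_log]
    simp only [map_mul, map_neg, Complex.conj_ofReal, Complex.conj_I]
    rw [mul_mul_mul_comm, ← Complex.exp_add]
    congr 2
    push_cast
    ring
  rw [← intervalIntegral.integral_ofReal]
  simp_rw [hexp]
  rw [intervalIntegral.integral_finsetSum]
  · refine Finset.sum_congr rfl fun m hm => ?_
    rw [intervalIntegral.integral_finsetSum]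
    · refine Finset.sum_congr rfl fun n hn => ?_
      rw [intervalIntegral.integral_const_mul]
    · intro n hn
      exact (by fun_prop : Continuous fun t : ℝ => b m * (starRingEnd ℂ) (b n) *
        cexp ((I * ((Real.log n - Real.log m : ℝ) : ℂ)) * t)).intervalIntegrable _ _
  · intro m hm
    exact (by fun_prop : Continuous fun t : ℝ => ∑ n ∈ Finset.Icc 1 X, b m *
      (starRingEnd ℂ) (b n) *
        cexp ((I * ((Real.log n - Real.log m : ℝ) : ℂ)) * t)).intervalIntegrable _ _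

lemma conj_char {d : ℕ} [NeZero d] (ψ : DirichletCharacter ℂ d) {a : ZMod d} (ha : IsUnit a) :
    (starRingEnd ℂ) (ψ a) = ψ a⁻¹ := by
  have h1 : ‖ψ a‖ = 1 := by
    have := ψ.unit_norm_eq_one ha.unit
    simpa using this
  have h2 : ψ a * ψ a⁻¹ = 1 := by
    rw [← map_mul, ZMod.mul_inv_of_unit a ha, map_one]
  have h3 : ψ a * (starRingEnd ℂ) (ψ a) = 1 := by
    rw [Complex.mul_conj, Complex.normSq_eq_norm_sq, h1]
    simp
  have h4 : ψ a ≠ 0 := by
    intro h0
    rw [h0, norm_zero] at h1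
    norm_num at h1
  exact mul_left_cancel₀ h4 (h3.trans h2.symm)

/-- orthogonality -/
lemma orth {d : ℕ} [NeZero d] (a b : ZMod d) :
    ‖∑ ψ : DirichletCharacter ℂ d, ψ a * (starRingEnd ℂ) (ψ b)‖ ≤ if a = b then (d : ℝ) else 0 := by
  by_cases hb : IsUnit b
  · have h1 : ∑ ψ : DirichletCharacter ℂ d, ψ a * (starRingEnd ℂ) (ψ b) =
        if b = a then (d.totient : ℂ) else 0 := by
      rw [← DirichletCharacter.sum_char_inv_mul_char_eq ℂ hb a]
      refine Finset.sum_congr rfl fun ψ _ => ?_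
      rw [conj_char ψ hb, mul_comm]
    rw [h1]
    by_cases hab : a = b
    · rw [if_pos hab.symm, if_pos hab, Complex.norm_natCast]
      exact_mod_cast Nat.totient_le d
    · rw [if_neg (fun h => hab h.symm), if_neg hab, norm_zero]
  · have h1 : ∑ ψ : DirichletCharacter ℂ d, ψ a * (starRingEnd ℂ) (ψ b) = 0 := by
      refine Finset.sum_eq_zero fun ψ _ => ?_
      rw [MulChar.map_nonunit ψ hb, map_zero, mul_zero]
    rw [h1, norm_zero]
    split_ifs
    · exact Nat.cast_nonneg d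
    · exact le_rfl

/-- the mean value over all characters modulo `d` -/
theorem mv (d : ℕ) [NeZero d] (b : ℕ → ℂ) (X : ℕ) (T1 T2 : ℝ) (h : T1 ≤ T2) :
    ∑ ψ : DirichletCharacter ℂ d,
      ∫ t in T1..T2, ‖DH31.dp (fun m => b m * ψ (m : ZMod d)) X t‖ ^ 2 ≤
      (d * (T2 - T1) + 8 * X * (1 + Real.log X)) * ∑ n ∈ Finset.Icc 1 X, ‖b n‖ ^ 2 := by
  classical
  have hd : 0 < d := Nat.pos_of_ne_zero (NeZero.ne d)
  have hd0 : (0 : ℝ) < d := by exact_mod_cast hd
  set J : ℕ → ℕ → ℂ := fun m n =>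
    ∫ t in T1..T2, cexp ((I * ((Real.log n - Real.log m : ℝ) : ℂ)) * t) with hJ
  set K : ℕ → ℕ → ℂ := fun m n =>
    ∑ ψ : DirichletCharacter ℂ d, ψ (m : ZMod d) * (starRingEnd ℂ) (ψ (n : ZMod d)) with hK
  have hsum : ((∑ ψ : DirichletCharacter ℂ d,
      ∫ t in T1..T2, ‖DH31.dp (fun m => b m * ψ (m : ZMod d)) X t‖ ^ 2 : ℝ) : ℂ) =
      ∑ m ∈ Finset.Icc 1 X, ∑ n ∈ Finset.Icc 1 X, b m * (starRingEnd ℂ) (b n) * K m n * J m n := by
    rw [Complex.ofReal_sum]
    simp_rw [int_expand]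
    rw [Finset.sum_comm]
    refine Finset.sum_congr rfl fun m _ => ?_
    rw [Finset.sum_comm]
    refine Finset.sum_congr rfl fun n _ => ?_
    simp only [hK]
    rw [Finset.mul_sum, Finset.sum_mul]
    refine Finset.sum_congr rfl fun ψ _ => ?_
    rw [map_mul]
    simp only [hJ]
    ring
  have hle : ∑ ψ : DirichletCharacter ℂ d,
      ∫ t in T1..T2, ‖DH31.dp (fun m => b m * ψ (m : ZMod d)) X t‖ ^ 2 ≤
      ‖((∑ ψ : DirichletCharacter ℂ d,
      ∫ t in T1..T2, ‖DH31.dp (fun m => b m * ψ (m : ZMod d)) X t‖ ^ 2 : ℝ) : ℂ)‖ := by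
    rw [Complex.norm_real]
    exact le_abs_self _
  refine hle.trans ?_
  rw [hsum]
  have hb : ∀ m ∈ Finset.Icc 1 X, ∀ n ∈ Finset.Icc 1 X,
      ‖b m * (starRingEnd ℂ) (b n) * K m n * J m n‖ ≤
      (if m = n then d * (T2 - T1) * ‖b m‖ ^ 2 else 0) +
        (d * X * (if (m : ZMod d) = (n : ZMod d) then 1 / |(m : ℝ) - n| else 0) * ‖b m‖ ^ 2 +
         d * X * (if (n : ZMod d) = (m : ZMod d) then 1 / |(n : ℝ) - m| else 0) * ‖b n‖ ^ 2) := by
    intro m hm n hn
    rw [norm_mul, norm_mul, norm_mul, RCLike.norm_conj]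
    have h1 := int_bound T1 T2 h hm hn
    have h2 := orth (m : ZMod d) (n : ZMod d)
    by_cases hmn : (m : ZMod d) = (n : ZMod d)
    · rw [if_pos hmn] at h2
      rw [if_pos hmn, if_pos hmn.symm]
      have h3 : ‖b m‖ * ‖b n‖ * ‖K m n‖ * ‖J m n‖ ≤
          ‖b m‖ * ‖b n‖ * d * ((if m = n then T2 - T1 else 0) + 2 * X * (1 / |(m : ℝ) - n|)) := by
        apply mul_le_mul _ h1 (norm_nonneg _) (by positivity)
        exact mul_le_mul_of_nonneg_left h2 (by positivity)
      refine h3.trans ?_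
      rw [abs_sub_comm (n : ℝ) m, mul_add]
      refine add_le_add ?_ ?_
      · split_ifs with hmn
        · subst hmn
          apply le_of_eq; ring
        · simp
      · have h3 : 2 * (‖b m‖ * ‖b n‖) ≤ ‖b m‖ ^ 2 + ‖b n‖ ^ 2 := by
          nlinarith [sq_nonneg (‖b m‖ - ‖b n‖)]
        have h4 : (0 : ℝ) ≤ d * X * (1 / |(m : ℝ) - n|) := by positivity
        have h5 := mul_le_mul_of_nonneg_left h3 h4
        calc ‖b m‖ * ‖b n‖ * d * (2 * X * (1 / |(m : ℝ) - n|)) =
            d * X * (1 / |(m : ℝ) - n|) * (2 * (‖b m‖ * ‖b n‖)) := by ring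
          _ ≤ d * X * (1 / |(m : ℝ) - n|) * (‖b m‖ ^ 2 + ‖b n‖ ^ 2) := h5
          _ = _ := by ring
    · rw [if_neg hmn] at h2
      have h3 : ‖K m n‖ = 0 := le_antisymm h2 (norm_nonneg _)
      have h4 : m ≠ n := fun h' => hmn (by rw [h'])
      rw [h3, if_neg h4, if_neg hmn, if_neg (fun h' => hmn h'.symm)]
      simp
  refine (norm_sum_le _ _).trans ((Finset.sum_le_sum fun m hm => (norm_sum_le _ _).trans
    (Finset.sum_le_sum fun n hn => hb m hm n hn)).trans ?_)
  simp_rw [Finset.sum_add_distrib]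
  have hA : ∑ m ∈ Finset.Icc 1 X, ∑ n ∈ Finset.Icc 1 X,
      (if m = n then d * (T2 - T1) * ‖b m‖ ^ 2 else 0) =
      d * (T2 - T1) * ∑ n ∈ Finset.Icc 1 X, ‖b n‖ ^ 2 := by
    rw [Finset.mul_sum]
    refine Finset.sum_congr rfl fun m hm => ?_
    rw [Finset.sum_ite_eq]
    simp [hm]
  have hB : ∑ m ∈ Finset.Icc 1 X, ∑ n ∈ Finset.Icc 1 X,
      d * X * (if (m : ZMod d) = (n : ZMod d) then 1 / |(m : ℝ) - n| else 0) * ‖b m‖ ^ 2 ≤
      2 * X * (1 + Real.log X) * ∑ n ∈ Finset.Icc 1 X, ‖b n‖ ^ 2 := by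
    rw [Finset.mul_sum]
    refine Finset.sum_le_sum fun m hm => ?_
    rw [← Finset.sum_mul, ← Finset.mul_sum]
    have := harm_class d X m hd hm
    have h5 : (d : ℝ) * X * ∑ n ∈ Finset.Icc 1 X,
        (if (m : ZMod d) = (n : ZMod d) then 1 / |(m : ℝ) - n| else 0) ≤
        d * X * (2 * (1 + Real.log X) / d) := mul_le_mul_of_nonneg_left this (by positivity)
    have h6 := mul_le_mul_of_nonneg_right h5 (sq_nonneg ‖b m‖)
    refine h6.trans (le_of_eq ?_)
    field_simp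
  have hC : ∑ m ∈ Finset.Icc 1 X, ∑ n ∈ Finset.Icc 1 X,
      d * X * (if (n : ZMod d) = (m : ZMod d) then 1 / |(n : ℝ) - m| else 0) * ‖b n‖ ^ 2 ≤
      2 * X * (1 + Real.log X) * ∑ n ∈ Finset.Icc 1 X, ‖b n‖ ^ 2 := by
    rw [Finset.sum_comm]
    exact hB
  rw [hA]
  have hlog : 0 ≤ Real.log (X : ℝ) := Real.log_natCast_nonneg X
  have hS : 0 ≤ (X : ℝ) * (1 + Real.log X) * ∑ n ∈ Finset.Icc 1 X, ‖b n‖ ^ 2 := by
    have : 0 ≤ ∑ n ∈ Finset.Icc 1 X, ‖b n‖ ^ 2 := Finset.sum_nonneg fun _ _ => by positivity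
    positivity
  nlinarith

/-- one point of each unit interval -/
lemma disc (b : ℕ → ℂ) (X : ℕ) (M0 : ℤ) (N0 : ℕ) (S : Finset ℤ)
    (hS : S ⊆ Finset.Ico M0 (M0 + N0)) (t : ℤ → ℝ)
    (ht : ∀ n ∈ S, t n ∈ Icc (n : ℝ) (n + 1)) :
    ∑ n ∈ S, ‖DH31.dp b X (t n)‖ ^ 2 ≤
      2 * (∫ u in (M0 : ℝ)..(M0 + N0), ‖DH31.dp b X u‖ ^ 2) +
        ∫ u in (M0 : ℝ)..(M0 + N0), ‖DH31.dp (fun n => b n * (-(I * Real.log n))) X u‖ ^ 2 := by
  set b' : ℕ → ℂ := fun n => b n * (-(I * Real.log n)) with hb'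
  set F : ℝ → ℝ := fun t => 2 * ‖DH31.dp b X t‖ ^ 2 + ‖DH31.dp b' X t‖ ^ 2 with hF
  have hc1 := DH31.dp_continuous b X
  have hc2 := DH31.dp_continuous b' X
  have hFc : Continuous F := by fun_prop
  have hF0 : ∀ t, 0 ≤ F t := fun t => by simp only [hF]; positivity
  have h1 : ∑ n ∈ S, ‖DH31.dp b X (t n)‖ ^ 2 ≤
      ∑ n ∈ Finset.Ico M0 (M0 + N0), ∫ u in (n : ℝ)..(n + 1), F u := by
    refine (Finset.sum_le_sum fun n hn =>
      DH31.sob (DH31.dp_hasDerivAt b X) hc2 (ht n hn)).trans ?_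
    refine Finset.sum_le_sum_of_subset_of_nonneg hS fun n _ _ => ?_
    exact intervalIntegral.integral_nonneg (by linarith) fun u _ => hF0 u
  have h2 : ∑ n ∈ Finset.Ico M0 (M0 + N0), ∫ u in (n : ℝ)..(n + 1), F u =
      ∑ k ∈ Finset.range N0, ∫ u in ((M0 : ℝ) + k)..((M0 : ℝ) + (k + 1 : ℕ)), F u := by
    symm
    refine Finset.sum_bij (fun (k : ℕ) _ => M0 + (k : ℤ)) ?_ ?_ ?_ ?_
    · intro k hk
      rw [Finset.mem_range] at hk
      rw [Finset.mem_Ico]
      omega
    · intro a _ c _ hac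
      omega
    · intro n hn
      rw [Finset.mem_Ico] at hn
      refine ⟨(n - M0).toNat, ?_, ?_⟩
      · rw [Finset.mem_range]
        omega
      · omega
    · intro k _
      push_cast
      congr 1
      ring
  have h3 : ∑ k ∈ Finset.range N0, ∫ u in ((M0 : ℝ) + k)..((M0 : ℝ) + (k + 1 : ℕ)), F u =
      ∫ u in (M0 : ℝ)..(M0 + N0), F u := by
    have := intervalIntegral.sum_integral_adjacent_intervals (f := F)
      (a := fun n : ℕ => (M0 : ℝ) + n) (n := N0) (μ := volume)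
      (fun k _ => hFc.intervalIntegrable _ _)
    simpa using this
  have h4 : ∫ u in (M0 : ℝ)..(M0 + N0), F u =
      2 * (∫ u in (M0 : ℝ)..(M0 + N0), ‖DH31.dp b X u‖ ^ 2) +
        ∫ u in (M0 : ℝ)..(M0 + N0), ‖DH31.dp b' X u‖ ^ 2 := by
    simp only [hF]
    rw [intervalIntegral.integral_add, intervalIntegral.integral_const_mul]
    · apply Continuous.intervalIntegrable; fun_prop
    · apply Continuous.intervalIntegrable; fun_prop
  rw [h2, h3, h4] at h1
  exact h1

/-- all characters modulo `d`, integrals and derivatives -/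
lemma level (d q : ℕ) [NeZero d] (hdq : d ≤ q) (c : ℕ → ℂ) (X : ℕ) (M0 : ℤ) (N0 : ℕ) :
    ∑ ψ : DirichletCharacter ℂ d,
      (2 * (∫ u in (M0 : ℝ)..(M0 + N0), ‖DH31.dp (fun m => c m * ψ (m : ZMod d)) X u‖ ^ 2) +
        ∫ u in (M0 : ℝ)..(M0 + N0), ‖DH31.dp (fun m => c m * ψ (m : ZMod d) *
          (-(I * Real.log m))) X u‖ ^ 2) ≤
      (2 + Real.log X ^ 2) * (q * N0 + 8 * X * (1 + Real.log X)) *
        ∑ m ∈ Finset.Icc 1 X, ‖c m‖ ^ 2 := by
  have hN0 : (0 : ℝ) ≤ N0 := Nat.cast_nonneg N0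
  have h4 := mv d c X (M0 : ℝ) (M0 + N0) (by linarith)
  have h5 := mv d (fun m => c m * (-(I * Real.log m))) X (M0 : ℝ) (M0 + N0) (by linarith)
  rw [add_sub_cancel_left] at h4 h5
  have h6 : ∑ n ∈ Finset.Icc 1 X, ‖c n * (-(I * Real.log n))‖ ^ 2 ≤
      Real.log X ^ 2 * ∑ n ∈ Finset.Icc 1 X, ‖c n‖ ^ 2 := by
    rw [Finset.mul_sum]
    refine Finset.sum_le_sum fun n hn => ?_
    rw [Finset.mem_Icc] at hn
    have hn1 : (1 : ℝ) ≤ n := by exact_mod_cast hn.1
    have hlog : 0 ≤ Real.log n := Real.log_nonneg hn1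
    have hlog2 : Real.log n ≤ Real.log X := Real.log_le_log (by linarith) (by exact_mod_cast hn.2)
    rw [norm_mul, norm_neg, norm_mul, Complex.norm_I, one_mul, Complex.norm_real,
      Real.norm_of_nonneg hlog, mul_pow, mul_comm]
    gcongr
  have hlogX : 0 ≤ Real.log X := Real.log_natCast_nonneg X
  have hS0 : 0 ≤ ∑ n ∈ Finset.Icc 1 X, ‖c n‖ ^ 2 := Finset.sum_nonneg fun _ _ => by positivity
  have hdq' : (d : ℝ) ≤ q := by exact_mod_cast hdq
  have hA : (d : ℝ) * N0 + 8 * X * (1 + Real.log X) ≤ q * N0 + 8 * X * (1 + Real.log X) := by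
    have := mul_le_mul_of_nonneg_right hdq' hN0
    linarith
  have hA0 : 0 ≤ (d : ℝ) * N0 + 8 * X * (1 + Real.log X) := by positivity
  have h4' := h4.trans (mul_le_mul_of_nonneg_right hA hS0)
  have h5' : ∑ ψ : DirichletCharacter ℂ d,
      ∫ t in (M0 : ℝ)..(M0 + N0), ‖DH31.dp (fun m => c m * (-(I * Real.log m)) *
        ψ (m : ZMod d)) X t‖ ^ 2 ≤ (q * N0 + 8 * X * (1 + Real.log X)) *
      (Real.log X ^ 2 * ∑ n ∈ Finset.Icc 1 X, ‖c n‖ ^ 2) := by
    refine h5.trans ?_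
    refine mul_le_mul hA h6 (Finset.sum_nonneg fun _ _ => by positivity) (hA0.trans hA)
  have h7 : ∀ ψ : DirichletCharacter ℂ d,
      (∫ u in (M0 : ℝ)..(M0 + N0), ‖DH31.dp (fun m => c m * ψ (m : ZMod d) *
          (-(I * Real.log m))) X u‖ ^ 2) =
      ∫ t in (M0 : ℝ)..(M0 + N0), ‖DH31.dp (fun m => c m * (-(I * Real.log m)) *
        ψ (m : ZMod d)) X t‖ ^ 2 := by
    intro ψ
    have : (fun m : ℕ => c m * ψ (m : ZMod d) * (-(I * Real.log m))) =
        fun m : ℕ => c m * (-(I * Real.log m)) * ψ (m : ZMod d) := by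
      funext m
      ring
    rw [this]
  rw [Finset.sum_add_distrib, ← Finset.mul_sum, Finset.sum_congr rfl fun ψ _ => h7 ψ]
  calc _ ≤ 2 * ((q * N0 + 8 * X * (1 + Real.log X)) * ∑ n ∈ Finset.Icc 1 X, ‖c n‖ ^ 2) +
      (q * N0 + 8 * X * (1 + Real.log X)) *
      (Real.log X ^ 2 * ∑ n ∈ Finset.Icc 1 X, ‖c n‖ ^ 2) :=
        add_le_add (mul_le_mul_of_nonneg_left h4' (by norm_num)) h5'
    _ = _ := by ring

/-- the character of level `d` below a character of conductor `d` -/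
lemma descend (q d : ℕ) (hd : d ∣ q) (χ : DirichletCharacter ℂ q) (h : χ.conductor = d) :
    ∃ ψ : DirichletCharacter ℂ d, DirichletCharacter.changeLevel hd ψ = χ ∧
      ∀ m : ℕ, χ.primitiveCharacter (m : ZMod χ.conductor) = ψ (m : ZMod d) := by
  subst h
  exact ⟨χ.primitiveCharacter, χ.changeLevel_primitiveCharacter, fun _ => rfl⟩

theorem hmv : Pool.Agent.K9h52.HY.S_HMV := by
  classical
  intro q _ c X M0 N0 S hS t ht
  have hq : 0 < q := Nat.pos_of_ne_zero (NeZero.ne q)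
  set G : DirichletCharacter ℂ q → ℝ := fun χ =>
    2 * (∫ u in (M0 : ℝ)..(M0 + N0), ‖DH31.dp (fun m => c m *
      χ.primitiveCharacter (m : ZMod χ.conductor)) X u‖ ^ 2) +
        ∫ u in (M0 : ℝ)..(M0 + N0), ‖DH31.dp (fun m => c m *
          χ.primitiveCharacter (m : ZMod χ.conductor) * (-(I * Real.log m))) X u‖ ^ 2 with hG
  set B : ℝ := (2 + Real.log X ^ 2) * (q * N0 + 8 * X * (1 + Real.log X)) *
        ∑ m ∈ Finset.Icc 1 X, ‖c m‖ ^ 2 with hB
  have h1 : ∑ χ : DirichletCharacter ℂ q, ∑ n ∈ S χ,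
      ‖DH31.dp (fun m => c m * χ.primitiveCharacter (m : ZMod χ.conductor)) X (t χ n)‖ ^ 2 ≤
      ∑ χ : DirichletCharacter ℂ q, G χ :=
    Finset.sum_le_sum fun χ _ => disc _ X M0 N0 (S χ) (hS χ) (t χ) (ht χ)
  have hmaps : ∀ χ ∈ (Finset.univ : Finset (DirichletCharacter ℂ q)),
      χ.conductor ∈ q.divisors := fun χ _ => by
    rw [Nat.mem_divisors]
    exact ⟨χ.conductor_dvd_level, hq.ne'⟩
  have h2 : ∑ χ : DirichletCharacter ℂ q, G χ =
      ∑ d ∈ q.divisors, ∑ χ : DirichletCharacter ℂ q with χ.conductor = d, G χ :=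
    (Finset.sum_fiberwise_of_maps_to hmaps G).symm
  have h3 : ∀ d ∈ q.divisors,
      ∑ χ : DirichletCharacter ℂ q with χ.conductor = d, G χ ≤ B := by
    intro d hd
    rw [Nat.mem_divisors] at hd
    have hd0 : d ≠ 0 := by
      rintro rfl
      exact hd.2 (zero_dvd_iff.1 hd.1)
    have : NeZero d := ⟨hd0⟩
    choose! g hg1 hg2 using fun χ => descend q d hd.1 χ
    set H : DirichletCharacter ℂ d → ℝ := fun ψ =>
      2 * (∫ u in (M0 : ℝ)..(M0 + N0), ‖DH31.dp (fun m => c m * ψ (m : ZMod d)) X u‖ ^ 2) +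
        ∫ u in (M0 : ℝ)..(M0 + N0), ‖DH31.dp (fun m => c m * ψ (m : ZMod d) *
          (-(I * Real.log m))) X u‖ ^ 2 with hH
    have hN0 : (0 : ℝ) ≤ N0 := Nat.cast_nonneg N0
    have hH0 : ∀ ψ, 0 ≤ H ψ := by
      intro ψ
      simp only [hH]
      refine add_nonneg (mul_nonneg (by norm_num) ?_) ?_
      · exact intervalIntegral.integral_nonneg (by linarith) fun u _ => by positivity
      · exact intervalIntegral.integral_nonneg (by linarith) fun u _ => by positivity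
    have hGH : ∀ χ ∈ (Finset.univ : Finset (DirichletCharacter ℂ q)).filter
        (fun χ => χ.conductor = d), G χ = H (g χ) := by
      intro χ hχ
      have hc := (Finset.mem_filter.1 hχ).2
      have e := hg2 χ hc
      simp only [hG, hH, e]
    rw [Finset.sum_congr rfl hGH]
    have hinj : Set.InjOn g ((Finset.univ : Finset (DirichletCharacter ℂ q)).filter
        (fun χ => χ.conductor = d) : Finset (DirichletCharacter ℂ q)) := by
      intro χ hχ χ' hχ' he
      have hc := (Finset.mem_filter.1 (Finset.mem_coe.1 hχ)).2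
      have hc' := (Finset.mem_filter.1 (Finset.mem_coe.1 hχ')).2
      rw [← hg1 χ hc, ← hg1 χ' hc', he]
    rw [← Finset.sum_image hinj]
    refine (Finset.sum_le_sum_of_subset_of_nonneg (Finset.subset_univ _)
      fun ψ _ _ => hH0 ψ).trans ?_
    exact level d q (Nat.le_of_dvd hq hd.1) c X M0 N0
  calc _ ≤ ∑ χ : DirichletCharacter ℂ q, G χ := h1
    _ = ∑ d ∈ q.divisors, ∑ χ : DirichletCharacter ℂ q with χ.conductor = d, G χ := h2
    _ ≤ ∑ d ∈ q.divisors, B := Finset.sum_le_sum h3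
    _ = q.divisors.card * B := by rw [Finset.sum_const, nsmul_eq_mul]
    _ = _ := by rw [hB]; ring

end Pool.Agent.K9h99.HMV
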